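import Mathlib

set_option autoImplicit false

/-! Exterior algebra part of lemma LA: iterated contractions of `L ∧ Ω^p`. -/

namespace Pool.Agent.V7H4.KD

open ExteriorAlgebra

section alg

variable {V : Type*} [AddCommGroup V] [Module ℂ V]

/-- contraction with a linear functional -/
noncomputable def ctr (d : Module.Dual ℂ V) : ExteriorAlgebra ℂ V →ₗ[ℂ] ExteriorAlgebra ℂ V :=
  CliffordAlgebra.contractLeft (Q := (0 : QuadraticForm ℂ V)) d

theorem ctr_ι_mul (d : Module.Dual ℂ V) (a : V) (b : ExteriorAlgebra ℂ V) :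
    ctr d (ι ℂ a * b) = d a • b - ι ℂ a * ctr d b :=
  CliffordAlgebra.contractLeft_ι_mul d a b

theorem ctr_one (d : Module.Dual ℂ V) : ctr d (1 : ExteriorAlgebra ℂ V) = 0 :=
  CliffordAlgebra.contractLeft_one _ d

theorem anti (a b : V) : ι ℂ a * ι ℂ b = -(ι ℂ b * ι ℂ a) := by
  have := ι_add_mul_swap (R := ℂ) a b
  exact eq_neg_of_add_eq_zero_left this

theorem ctr_prod (d : Module.Dual ℂ V) (L : List V) (hL : ∀ v ∈ L, d v = 0)
    (b : ExteriorAlgebra ℂ V) :
    ctr d ((L.map (ι ℂ)).prod * b) = (-1 : ℂ) ^ L.length • ((L.map (ι ℂ)).prod * ctr d b) := by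
  induction L with
  | nil => simp
  | cons v L ih =>
    have h1 : d v = 0 := hL v (by simp)
    have h2 := ih (fun w hw => hL w (by simp [hw]))
    rw [List.map_cons, List.prod_cons, mul_assoc, ctr_ι_mul, h1, h2, List.length_cons, pow_succ,
      mul_assoc, mul_smul_comm]
    simp

variable {n : ℕ}

/-- `∑ R_k ∧ e_k` -/
noncomputable def Om (R e : Fin n → V) : ExteriorAlgebra ℂ V := ∑ k, ι ℂ (R k) * ι ℂ (e k)

theorem ctr_Om_mul (d : Module.Dual ℂ V) (R e : Fin n → V) (m : Fin n) (hR : ∀ k, d (R k) = 0)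
    (he : ∀ k, d (e k) = if k = m then 1 else 0) (b : ExteriorAlgebra ℂ V) :
    ctr d (Om R e * b) = -(ι ℂ (R m) * b) + Om R e * ctr d b := by
  have h : ∀ k, ctr d (ι ℂ (R k) * ι ℂ (e k) * b) =
      (if k = m then -(ι ℂ (R m) * b) else 0) + ι ℂ (R k) * ι ℂ (e k) * ctr d b := by
    intro k
    rw [mul_assoc, ctr_ι_mul, ctr_ι_mul, hR, he]
    by_cases hk : k = m
    · subst hk
      simp [mul_sub, mul_assoc]
      abel
    · simp [hk, mul_assoc]
  rw [Om, Finset.sum_mul, map_sum, Finset.sum_congr rfl fun k _ => h k, Finset.sum_add_distrib,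
    Finset.sum_mul]
  simp

theorem comm_pair (a b c : V) : Commute (ι ℂ a) (ι ℂ b * ι ℂ c) := by
  unfold Commute SemiconjBy
  rw [← mul_assoc, anti a b, neg_mul, mul_assoc, anti a c, mul_neg, neg_neg, mul_assoc]

theorem comm_Om (a : V) (R e : Fin n → V) : Commute (ι ℂ a) (Om R e) :=
  Commute.sum_right _ _ _ fun k _ => comm_pair a (R k) (e k)

theorem ctr_Om_pow (d : Module.Dual ℂ V) (R e : Fin n → V) (m : Fin n) (hR : ∀ k, d (R k) = 0)
    (he : ∀ k, d (e k) = if k = m then 1 else 0) (p : ℕ) :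
    ctr d (Om R e ^ (p + 1)) = (-((p : ℂ) + 1)) • (ι ℂ (R m) * Om R e ^ p) := by
  induction p with
  | zero =>
    have := ctr_Om_mul d R e m hR he 1
    rw [ctr_one, mul_zero, add_zero, mul_one] at this
    simp [this]
  | succ p ih =>
    have hc := comm_Om (R m) R e
    rw [pow_succ' _ (p + 1), ctr_Om_mul d R e m hR he, ih, mul_smul_comm, ← mul_assoc, ← hc.eq,
      mul_assoc, ← pow_succ']
    push_cast
    rw [show (-((p : ℂ) + 1 + 1)) = -1 + -((p : ℂ) + 1) by ring, add_smul (-1 : ℂ), neg_one_smul]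

/-- iterated contractions -/
noncomputable def contrs (dd : Fin n → Module.Dual ℂ V) :
    List (Fin n) → ExteriorAlgebra ℂ V →ₗ[ℂ] ExteriorAlgebra ℂ V
  | [] => LinearMap.id
  | m :: ms => contrs dd ms ∘ₗ ctr (dd m)

/-- the constants -/
noncomputable def cst : ℕ → ℕ → ℂ
  | _, 0 => 1
  | s, p + 1 => (-1) ^ s * (-((p : ℂ) + 1)) * cst (s + 1) p

theorem cst_ne (s p : ℕ) : cst s p ≠ 0 := by
  induction p generalizing s with
  | zero => simp [cst]
  | succ p ih =>
    rw [cst]
    refine mul_ne_zero (mul_ne_zero (pow_ne_zero _ (by norm_num)) ?_) (ih _)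
    rw [neg_ne_zero]
    exact_mod_cast Nat.succ_ne_zero p

theorem contrs_main (dd : Fin n → Module.Dual ℂ V) (R e : Fin n → V)
    (hR : ∀ m k, dd m (R k) = 0) (he : ∀ m k, dd m (e k) = if k = m then 1 else 0)
    (ms : List (Fin n)) (L : List V) (hL : ∀ v ∈ L, ∀ m, dd m v = 0) :
    contrs dd ms ((L.map (ι ℂ)).prod * Om R e ^ ms.length) =
      cst L.length ms.length • ((L ++ ms.map R).map (ι ℂ)).prod := by
  induction ms generalizing L with
  | nil => simp [contrs, cst]
  | cons m ms ih =>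
    have h1 := ih (L ++ [R m]) (by
      intro v hv m'
      rw [List.mem_append, List.mem_singleton] at hv
      rcases hv with hv | rfl
      · exact hL v hv m'
      · exact hR m' m)
    rw [List.length_cons, contrs, LinearMap.comp_apply, ctr_prod _ _ (fun v hv => hL v hv m),
      ctr_Om_pow (dd m) R e m (hR m) (he m), mul_smul_comm, smul_smul, map_smul, ← mul_assoc]
    rw [show (L.map (ι ℂ)).prod * ι ℂ (R m) = (((L ++ [R m]).map (ι ℂ)).prod) by simp, h1, smul_smul,
      cst]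
    simp [List.append_assoc]

/-- `(Θ + T)^(q+1) = Θ^(q+1) + (q+1) T Θ^q` if `T² = 0` and `T` commutes with `Θ` -/
theorem pow_add_nil {A : Type*} [Ring A] (Θ T : A) (hc : Commute Θ T) (hT : T * T = 0) (q : ℕ) :
    (Θ + T) ^ (q + 1) = Θ ^ (q + 1) + ((q : A) + 1) * (T * Θ ^ q) := by
  induction q with
  | zero => simp
  | succ q ih =>
    have h1 : Commute T (Θ ^ (q + 1)) := (hc.symm).pow_right _
    have h2 : T * Θ ^ q * T = 0 := by
      rw [mul_assoc, ((hc.symm).pow_right q).symm.eq, ← mul_assoc, hT, zero_mul]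
    rw [pow_succ (Θ + T) (q + 1), ih, add_mul, mul_add, ← pow_succ, ← h1.eq, mul_assoc _ _ (Θ + T),
      mul_add, h2, add_zero, mul_assoc T, ← pow_succ]
    push_cast
    noncomm_ring

end alg

end Pool.Agent.V7H4.KD
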