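import Mathlib
import Pool.Agent.V7H87.KD.Defs
import Pool.Agent.V7H4.KD.LA3

set_option autoImplicit false

/-! Lemma LA (`null_vector`) for the comparison of Kohn's and D'Angelo's finite type. -/

namespace Pool.Agent.V7H4.KD

open Pool.Agent.V7H87.KD

variable {n : ℕ}

/-- evaluation at a point -/
def evr {X : Type*} (R : Subalgebra ℂ (X → ℂ)) (x : X) : R →+* ℂ :=
  (Pi.evalRingHom (fun _ => ℂ) x).comp R.subtype

theorem evr_apply {X : Type*} (R : Subalgebra ℂ (X → ℂ)) (x : X) (g : R) :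
    evr R x g = (g : X → ℂ) x := rfl

theorem map_snoc {A : Type*} {B : Type*} (f : A → B) (φ : Fin n → A) (c : A) :
    (fun k => f ((Fin.snoc φ c : Fin (n + 1) → A) k)) =
      (Fin.snoc (fun j => f (φ j)) (f c) : Fin (n + 1) → B) := by
  funext k
  refine Fin.lastCases ?_ (fun i => ?_) k
  · simp
  · simp

theorem det_mem (X : Type*) (R : Subalgebra ℂ (X → ℂ)) (p : Ideal R)
    (ρ ρ' : Fin n → R) (θ : Fin n → Fin n → R) (F : Set (Fin n → R))
    (h : ∀ φs : List (Fin n → R), φs.length ≤ n - 1 → (∀ φ ∈ φs, φ ∈ F) →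
      ∀ l : ExteriorAlgebra ℂ (Cov n) →ₗ[ℂ] ℂ, ∃ g ∈ p, (g : X → ℂ) = fun x =>
        l ((φs.map fun φ => ExteriorAlgebra.ι ℂ (∑ j, (φ j : X → ℂ) x • eZ j)).prod *
          ExteriorAlgebra.ι ℂ (∑ j, (ρ j : X → ℂ) x • eZ j) *
          ExteriorAlgebra.ι ℂ (∑ j, (ρ' j : X → ℂ) x • eZb j) *
          (∑ j, ∑ k, (θ j k : X → ℂ) x •
            (ExteriorAlgebra.ι ℂ (eZ j) * ExteriorAlgebra.ι ℂ (eZb k))) ^ (n - 1 - φs.length)))
    (φs : List (Fin n → R)) (hF : ∀ φ ∈ φs, φ ∈ F) (ms : List (Fin n)) (hms : ms ≠ [])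
    (hlen : φs.length + ms.length = n) :
    (rowsOf ((φs.map fun φ => (Fin.snoc φ 0 : Fin (n + 1) → R)) ++ [Fin.snoc ρ 0] ++
        ms.map fun m => (Fin.snoc (fun j => θ j m) (ρ' m) : Fin (n + 1) → R))).det ∈ p := by
  have hpos : 0 < ms.length := List.length_pos_of_ne_nil hms
  obtain ⟨g, hg, hgx⟩ := h φs (by omega) hF (lfun ms)
  set c : ℂ := ((-1) ^ (φs.length + 1) * (((n - 1 - φs.length : ℕ) : ℂ) + 1)⁻¹ *
    cst (φs.length + 1) ms.length) with hc
  have hc0 : c ≠ 0 := by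
    refine mul_ne_zero (mul_ne_zero (pow_ne_zero _ (by norm_num)) (inv_ne_zero ?_)) (cst_ne _ _)
    exact_mod_cast Nat.succ_ne_zero (n - 1 - φs.length)
  set D := (rowsOf ((φs.map fun φ => (Fin.snoc φ 0 : Fin (n + 1) → R)) ++ [Fin.snoc ρ 0] ++
        ms.map fun m => (Fin.snoc (fun j => θ j m) (ρ' m) : Fin (n + 1) → R))).det with hD
  have hev : ∀ x, (g : X → ℂ) x = c * (D : X → ℂ) x := by
    intro x
    have h1 := point_identity (φs.map fun φ j => (φ j : X → ℂ) x) (fun j => (ρ j : X → ℂ) x)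
      (fun j => (ρ' j : X → ℂ) x) (fun j k => (θ j k : X → ℂ) x) ms (n - 1 - φs.length)
      (by omega) (by simpa using hlen)
    rw [hgx]
    simp only [List.map_map, List.length_map] at h1
    refine Eq.trans ?_ (h1.trans ?_)
    · congr 5
    · rw [← evr_apply, hD, RingHom.map_det, ← hc]
      congr 2
      rw [RingHom.mapMatrix_apply, rowsOf_map _ (map_zero _)]
      congr 1
      simp only [List.map_append, List.map_map, List.map_cons, List.map_nil, Function.comp_def]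
      refine congrArg₂ (· ++ ·) (congrArg₂ (· ++ ·) (List.map_congr_left fun φ _ => ?_) ?_)
        (List.map_congr_left fun m _ => ?_)
      · rw [map_snoc, map_zero]
        rfl
      · rw [map_snoc, map_zero]
        rfl
      · rw [map_snoc]
        rfl
  have hgD : D = algebraMap ℂ R c⁻¹ * g := by
    apply Subtype.ext
    funext x
    have h2 : (g : X → ℂ) x = c * (D : X → ℂ) x := hev x
    show (D : X → ℂ) x = c⁻¹ * (g : X → ℂ) x
    rw [h2, ← mul_assoc, inv_mul_cancel₀ hc0, one_mul]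
  rw [hgD]
  exact p.mul_mem_left _ hg

theorem of_det {A : Type*} [CommRing A] (p : Ideal A) (hp : p.IsPrime)
    (ρ ρ' : Fin n → A) (θ : Fin n → Fin n → A) (F : Set (Fin n → A)) (hρF : ρ ∈ F)
    (j0 : Fin n) (hj0 : ρ j0 ∉ p) (j1 : Fin n) (hj1 : ρ' j1 ∉ p)
    (h : ∀ φs : List (Fin n → A), (∀ φ ∈ φs, φ ∈ F) → ∀ ms : List (Fin n), ms ≠ [] →
      φs.length + ms.length = n →
      (rowsOf ((φs.map fun φ => (Fin.snoc φ 0 : Fin (n + 1) → A)) ++ [Fin.snoc ρ 0] ++
        ms.map fun m => (Fin.snoc (fun j => θ j m) (ρ' m) : Fin (n + 1) → A))).det ∈ p) :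
    ∃ (a : Fin n → A) (s κ : A), (∃ j, a j ∉ p) ∧ s ∉ p ∧ (∀ φ ∈ F, ∑ j, a j * φ j ∈ p) ∧
      ∀ m, s * (∑ j, a j * θ j m) - κ * ρ' m ∈ p := by
  classical
  set π : A →+* FractionRing (A ⧸ p) := (algebraMap (A ⧸ p) (FractionRing (A ⧸ p))).comp
    (Ideal.Quotient.mk p) with hπ
  have hinj : Function.Injective (algebraMap (A ⧸ p) (FractionRing (A ⧸ p))) :=
    IsFractionRing.injective _ _
  have hπ0 : ∀ a : A, π a = 0 ↔ a ∈ p := by
    intro a
    rw [hπ, RingHom.comp_apply, map_eq_zero_iff _ hinj, Ideal.Quotient.eq_zero_iff_mem]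
  obtain ⟨a, ha0, haF, haT⟩ := exists_null (K := FractionRing (A ⧸ p)) (n := n) (I := F)
    (fun φ k => π ((Fin.snoc φ.1 0 : Fin (n + 1) → A) k)) (by simp) ⟨ρ, hρF⟩
    (by
      intro h0
      have := congrFun h0 (Fin.castSucc j0)
      simp only [Fin.snoc_castSucc, Pi.zero_apply] at this
      exact hj0 ((hπ0 _).1 this))
    (fun m k => π ((Fin.snoc (fun j => θ j m) (ρ' m) : Fin (n + 1) → A) k))
    (by
      intro is ms hlen hms
      have h1 := h (is.map Subtype.val) (by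
        intro φ hφ
        rw [List.mem_map] at hφ
        obtain ⟨y, -, rfl⟩ := hφ
        exact y.2) ms hms (by simpa using hlen)
      rw [← hπ0, RingHom.map_det, RingHom.mapMatrix_apply, rowsOf_map _ (map_zero _)] at h1
      rw [← h1]
      congr 2
      simp only [List.map_append, List.map_map, List.map_cons, List.map_nil, Function.comp_def])
  obtain ⟨b, hb⟩ := IsLocalization.exist_integer_multiples_of_finite (nonZeroDivisors (A ⧸ p)) a
  choose A' hA' using hb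
  choose B hB using fun i => Ideal.Quotient.mk_surjective (I := p) (A' i)
  have hπA : ∀ i, π (B i) = algebraMap (A ⧸ p) (FractionRing (A ⧸ p)) b * a i := by
    intro i
    rw [hπ, RingHom.comp_apply, hB, hA', Algebra.smul_def]
  have hb0 : algebraMap (A ⧸ p) (FractionRing (A ⧸ p)) b ≠ 0 := by
    rw [Ne, map_eq_zero_iff _ hinj]
    exact nonZeroDivisors.ne_zero b.2
  refine ⟨fun j => B (Fin.castSucc j), 1, -B (Fin.last n), ?_, ?_, ?_, ?_⟩
  · by_contra hcon
    push Not at hcon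
    have h1 : ∀ j : Fin n, a (Fin.castSucc j) = 0 := by
      intro j
      have h2 := (hπ0 _).2 (hcon j)
      rw [hπA] at h2
      exact (mul_eq_zero.1 h2).resolve_left hb0
    have h3 := haT j1
    rw [Fin.sum_univ_castSucc] at h3
    simp only [h1, zero_mul, Finset.sum_const_zero, zero_add, Fin.snoc_last] at h3
    have h4 : π (ρ' j1) ≠ 0 := fun h5 => hj1 ((hπ0 _).1 h5)
    have h5 : a (Fin.last n) = 0 := (mul_eq_zero.1 h3).resolve_right h4
    apply ha0
    funext k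
    refine Fin.lastCases ?_ (fun i => ?_) k
    · exact h5
    · exact h1 i
  · intro h1
    exact hp.ne_top ((Ideal.eq_top_iff_one _).2 h1)
  · intro φ hφ
    rw [← hπ0, map_sum]
    have h1 := haF ⟨φ, hφ⟩
    rw [Fin.sum_univ_castSucc] at h1
    simp only [Fin.snoc_castSucc, Fin.snoc_last, map_zero, mul_zero, add_zero] at h1
    simp only [map_mul, hπA, mul_assoc]
    rw [← Finset.mul_sum, h1, mul_zero]
  · intro m
    have h1 := haT m
    rw [Fin.sum_univ_castSucc] at h1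
    simp only [Fin.snoc_castSucc, Fin.snoc_last] at h1
    rw [← hπ0, one_mul, neg_mul, sub_neg_eq_add, map_add, map_sum]
    simp only [map_mul, hπA, mul_assoc]
    rw [← Finset.mul_sum, ← mul_add, h1, mul_zero]

/-- LA. `X` is a set of points, `R` a ring of complex functions on `X`, `p` a prime ideal, `ρ`, `ρ'`
(for `∂r`, `∂̄r`), `θ` (for `∂∂̄r`) and `F` a set of covectors (for `∂f`, `f ∈ p`) containing `ρ`. -/
theorem null_vector (X : Type*) (R : Subalgebra ℂ (X → ℂ)) (p : Ideal R) (hp : p.IsPrime)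
    (ρ ρ' : Fin n → R) (θ : Fin n → Fin n → R) (F : Set (Fin n → R)) (hρF : ρ ∈ F)
    (j0 : Fin n) (hj0 : ρ j0 ∉ p) (j1 : Fin n) (hj1 : ρ' j1 ∉ p)
    (h : ∀ φs : List (Fin n → R), φs.length ≤ n - 1 → (∀ φ ∈ φs, φ ∈ F) →
      ∀ l : ExteriorAlgebra ℂ (Cov n) →ₗ[ℂ] ℂ, ∃ g ∈ p, (g : X → ℂ) = fun x =>
        l ((φs.map fun φ => ExteriorAlgebra.ι ℂ (∑ j, (φ j : X → ℂ) x • eZ j)).prod *
          ExteriorAlgebra.ι ℂ (∑ j, (ρ j : X → ℂ) x • eZ j) *
          ExteriorAlgebra.ι ℂ (∑ j, (ρ' j : X → ℂ) x • eZb j) *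
          (∑ j, ∑ k, (θ j k : X → ℂ) x •
            (ExteriorAlgebra.ι ℂ (eZ j) * ExteriorAlgebra.ι ℂ (eZb k))) ^ (n - 1 - φs.length))) :
    ∃ (a : Fin n → R) (s κ : R), (∃ j, a j ∉ p) ∧ s ∉ p ∧ (∀ φ ∈ F, ∑ j, a j * φ j ∈ p) ∧
      ∀ m, s * (∑ j, a j * θ j m) - κ * ρ' m ∈ p :=
  of_det p hp ρ ρ' θ F hρF j0 hj0 j1 hj1 fun φs hF ms hms hlen =>
    det_mem X R p ρ ρ' θ F h φs hF ms hms hlen

end Pool.Agent.V7H4.KD
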